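import Pool.Agent.Y624.SC.Stm3

set_option autoImplicit false

/-! Job SC-OPEN (helper450). -/

namespace Pool.Agent.Y450.SC.OPEN

open Metric Set

variable {d : ℕ}

/-- the cone over the convex set `A` of the sphere -/
def cone (A : Set (EuclideanSpace ℝ (Fin d))) : Set (EuclideanSpace ℝ (Fin d)) :=
  {z | z = 0 ∨ ‖z‖⁻¹ • z ∈ A}

theorem normalize_smul {z : EuclideanSpace ℝ (Fin d)} {c : ℝ} (hc : 0 < c) :
    ‖c • z‖⁻¹ • (c • z) = ‖z‖⁻¹ • z := by
  rw [norm_smul, Real.norm_of_nonneg hc.le, mul_inv, smul_smul]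
  congr 1
  field_simp

theorem norm_normalize {z : EuclideanSpace ℝ (Fin d)} (hz : z ≠ 0) : ‖‖z‖⁻¹ • z‖ = 1 := by
  rw [norm_smul, norm_inv, norm_norm]
  exact inv_mul_cancel₀ (norm_ne_zero_iff.2 hz)

theorem convex_cone {A : Set (EuclideanSpace ℝ (Fin d))}
    (hA : ∀ x ∈ A, ‖x‖ = 1 → ∀ y ∈ A, ‖y‖ = 1 → ∀ a b : ℝ, 0 ≤ a → 0 ≤ b → ‖a • x + b • y‖ = 1 →
      a • x + b • y ∈ A) : Convex ℝ (cone A) := by
  intro z hz z' hz' a b ha hb hab
  by_cases hw : a • z + b • z' = 0
  · exact Or.inl hw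
  by_cases h0 : z = 0
  · subst h0
    rw [smul_zero, zero_add] at hw ⊢
    have hb' : b ≠ 0 := fun h => hw (by rw [h, zero_smul])
    have hz0 : z' ≠ 0 := fun h => hw (by rw [h, smul_zero])
    right
    rw [normalize_smul (lt_of_le_of_ne hb (Ne.symm hb'))]
    exact hz'.resolve_left hz0
  by_cases h0' : z' = 0
  · subst h0'
    rw [smul_zero, add_zero] at hw ⊢
    have ha' : a ≠ 0 := fun h => hw (by rw [h, zero_smul])
    right
    rw [normalize_smul (lt_of_le_of_ne ha (Ne.symm ha'))]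
    exact hz.resolve_left h0
  have hp := hz.resolve_left h0
  have hq := hz'.resolve_left h0'
  have e : ‖a • z + b • z'‖⁻¹ • (a • z + b • z') =
      (‖a • z + b • z'‖⁻¹ * a * ‖z‖) • (‖z‖⁻¹ • z) +
        (‖a • z + b • z'‖⁻¹ * b * ‖z'‖) • (‖z'‖⁻¹ • z') := by
    rw [smul_smul, smul_smul, mul_assoc _ ‖z‖, mul_assoc _ ‖z'‖,
      mul_inv_cancel₀ (norm_ne_zero_iff.2 h0), mul_inv_cancel₀ (norm_ne_zero_iff.2 h0'),
      mul_one, mul_one, smul_add, smul_smul, smul_smul]
  right
  rw [e]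
  apply hA _ hp (norm_normalize h0) _ hq (norm_normalize h0')
  · positivity
  · positivity
  · rw [← e]
    exact norm_normalize hw

theorem done : Pool.Agent.Y624.SC.S_OPEN := by
  intro d A U hA hU hcl x hx hx1
  have hx0 : x ≠ 0 := by
    rintro rfl
    simp at hx1
  have hC := convex_cone hA
  have h1 : x ∈ interior (closure (cone A)) := by
    have h2 : IsOpen (U \ {0}) := hU.sdiff isClosed_singleton
    have h3 : U \ {0} ⊆ closure (cone A) := by
      rintro z ⟨hz, hz0⟩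
      have hz0' : z ≠ 0 := hz0
      have h4 := hcl z hz hz0'
      have h5 : ‖z‖ • (‖z‖⁻¹ • z) ∈ closure (cone A) := by
        refine map_mem_closure (f := fun y => ‖z‖ • y) (continuous_const_smul _) h4 ?_
        rintro p ⟨hp, hp1⟩
        right
        show ‖‖z‖ • p‖⁻¹ • (‖z‖ • p) ∈ A
        rw [normalize_smul (norm_pos_iff.2 hz0')]
        rw [mem_sphere_zero_iff_norm] at hp1
        rw [hp1, inv_one, one_smul]
        exact hp
      rwa [smul_smul, mul_inv_cancel₀ (norm_ne_zero_iff.2 hz0'), one_smul] at h5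
    exact interior_maximal h3 h2 ⟨hx, hx0⟩
  have h6 : (interior (cone A)).Nonempty := by
    rw [hC.interior_nonempty_iff_affineSpan_eq_top]
    have h7 : affineSpan ℝ (closure (cone A)) = ⊤ :=
      hC.closure.interior_nonempty_iff_affineSpan_eq_top.1 ⟨x, h1⟩
    have h8 : closure (cone A) ⊆ (affineSpan ℝ (cone A) : Set (EuclideanSpace ℝ (Fin d))) :=
      closure_minimal (subset_affineSpan ℝ _) (AffineSubspace.closed_of_finiteDimensional _)
    rw [eq_top_iff, ← h7]
    exact affineSpan_le.2 h8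
  rw [hC.interior_closure_eq_interior_of_nonempty_interior h6] at h1
  have h9 := (interior_subset h1 : x ∈ cone A).resolve_left hx0
  rwa [hx1, inv_one, one_smul] at h9

end Pool.Agent.Y450.SC.OPEN
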